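import Pool.Agent.Helper50.BP.St

/-!
# Project BP, module CP: coprimality by choice of `j`
-/

set_option autoImplicit false

namespace Pool.Agent.Helper8.BP

open Pool.Agent.Helper43.GD Pool.Agent.Helper73.BG Pool.Agent.Helper50.BP

theorem hCP : Pool.Agent.Helper50.BP.StCP := by
  intro l k h h1 hg hs
  have hM : h + 3 * k ≠ 0 := by omega
  set j : ℕ := ∏ s ∈ (h + 3 * k).primeFactors.filter (fun s => ¬ s ∣ k + l), s with hj
  have hdvdj : ∀ s : ℕ, s.Prime → (s ∣ j ↔ s ∣ h + 3 * k ∧ ¬ s ∣ k + l) := by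
    intro s hsp
    rw [hj, Prime.dvd_finsetProd_iff hsp.prime]
    constructor
    · rintro ⟨a, ha, hsa⟩
      rw [Finset.mem_filter, Nat.mem_primeFactors] at ha
      have : s = a := (Nat.prime_dvd_prime_iff_eq hsp ha.1.1).1 hsa
      rw [this]
      exact ⟨ha.1.2.1, ha.2⟩
    · rintro ⟨ha, hb⟩
      exact ⟨s, by rw [Finset.mem_filter, Nat.mem_primeFactors]; exact ⟨⟨hsp, ha, hM⟩, hb⟩, dvd_rfl⟩
  have hcop : Nat.Coprime (k + l + 2 * h * j) (h + 3 * k) := by
    apply Nat.coprime_of_dvd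
    intro s hsp hs1 hs2
    by_cases hsk : s ∣ k + l
    · have h2 : s ∣ 2 * h * j := (Nat.dvd_add_right hsk).1 hs1
      rcases (Nat.Prime.dvd_mul hsp).1 h2 with h3 | h3
      · exact hs s hsp h3 hsk hs2
      · exact ((hdvdj s hsp).1 h3).2 hsk
    · have h3 : s ∣ j := (hdvdj s hsp).2 ⟨hs2, hsk⟩
      exact hsk ((Nat.dvd_add_left (Dvd.dvd.mul_left h3 (2 * h))).1 hs1)
  refine ⟨j, ?_, ?_⟩
  · obtain ⟨u, v, huv⟩ := Nat.isCoprime_iff_coprime.2 hcop
    push_cast at huv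
    refine ⟨u + 2 * v, v, ?_⟩
    push_cast
    linear_combination huv
  · rw [← hg]
    have e : l + 2 * h * j = l + (2 * j) * h := by ring
    rw [e]
    apply Nat.dvd_antisymm
    · apply Nat.dvd_gcd
      · apply Nat.dvd_gcd
        · exact (Nat.gcd_dvd_left _ _).trans (Nat.gcd_dvd_left _ _)
        · have h2 := (Nat.gcd_dvd_left (k.gcd (l + 2 * j * h)) h).trans (Nat.gcd_dvd_right _ _)
          have h3 := Nat.gcd_dvd_right (k.gcd (l + 2 * j * h)) h
          exact (Nat.dvd_add_left (Dvd.dvd.mul_left h3 (2 * j))).1 h2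
      · exact Nat.gcd_dvd_right _ _
    · apply Nat.dvd_gcd
      · apply Nat.dvd_gcd
        · exact (Nat.gcd_dvd_left _ _).trans (Nat.gcd_dvd_left _ _)
        · have h2 := (Nat.gcd_dvd_left (k.gcd l) h).trans (Nat.gcd_dvd_right _ _)
          have h3 := Nat.gcd_dvd_right (k.gcd l) h
          exact dvd_add h2 (Dvd.dvd.mul_left h3 (2 * j))
      · exact Nat.gcd_dvd_right _ _

end Pool.Agent.Helper8.BP
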